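import Pool.Agent.W932.OS.M0

/-!
# The explicit solution, second form, and the basic polynomials
-/

set_option autoImplicit false

namespace Pool.Agent.W932.OS

open Pool.Agent.W98.OS Polynomial

lemma q_pos (v : ℚ) : 0 < v ^ 2 + v + 1 := by nlinarith [sq_nonneg (v + 1 / 2)]

lemma wv_mul (v : ℚ) : wv v * (v ^ 2 + v + 1) = (v - 1) ^ 2 := by
  unfold wv
  exact div_mul_cancel₀ _ (q_pos v).ne'

theorem T_M (h0 : S_M0) : S_M := by
  intro n
  refine ⟨_, h0 n, fun v => ?_⟩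
  have hwq := wv_mul v
  have hw4 : (4 - wv v) * (v ^ 2 + v + 1) = 3 * (v + 1) ^ 2 := by
    linear_combination -hwq
  set w := wv v
  set q := v ^ 2 + v + 1
  unfold Pe
  rw [eval_finsetSum, eval_finsetSum, Finset.mul_sum]
  refine Finset.sum_congr rfl fun i hi => ?_
  rw [Finset.mem_range] at hi
  simp only [eval_mul, eval_C, eval_pow, eval_X, eval_sub, eval_add, eval_one, eval_ofNat]
  obtain ⟨t, ht⟩ : ∃ t, n = i + t := ⟨n - i, by omega⟩
  have e1 : n - i = t := by omega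
  have e2 : 2 * n + 1 - 2 * i = 2 * t + 1 := by omega
  rw [e1, e2]
  have e3 : q ^ n = q ^ i * q ^ t := by
    rw [← pow_add, ht]
  rw [e3]
  have e4 : ∀ c : ℚ, (v ^ 2 - 1) * (v - 1) ^ (4 * n + 2) * (q ^ i * q ^ t) *
      (c * w ^ i * (4 - w) ^ t) =
      (v ^ 2 - 1) * (v - 1) ^ (4 * n + 2) * c * (w * q) ^ i * ((4 - w) * q) ^ t := by
    intro c
    rw [mul_pow, mul_pow]; ring
  rw [e4, hwq, hw4, ← pow_mul, mul_pow 3, ← pow_mul]
  ring

/-! ### Closure properties -/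

lemma skip_add {E F : ℚ[X]} (hE : Skip E) (hF : Skip F) : Skip (E + F) := fun k => by
  rw [coeff_add, hE k, hF k, add_zero]

lemma skip_sub {E F : ℚ[X]} (hE : Skip E) (hF : Skip F) : Skip (E - F) := fun k => by
  rw [coeff_sub, hE k, hF k, sub_zero]

lemma skip_C {E : ℚ[X]} (a : ℚ) (hE : Skip E) : Skip (C a * E) := fun k => by
  rw [coeff_C_mul, hE k, mul_zero]

lemma skip_X3 {E : ℚ[X]} (hE : Skip E) : Skip (X ^ 3 * E) := fun k => by
  rw [coeff_X_pow_mul']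
  split_ifs with h
  · obtain ⟨k', rfl⟩ : ∃ k', k = k' + 1 := ⟨k - 1, by omega⟩
    have : 3 * (k' + 1) + 2 - 3 = 3 * k' + 2 := by omega
    rw [this]; exact hE k'
  · rfl

lemma skip_T {E : ℚ[X]} (hE : Skip E) : Skip ((X ^ 3 - 1) * E) := by
  have : (X ^ 3 - 1) * E = X ^ 3 * E - E := by ring
  rw [this]; exact skip_sub (skip_X3 hE) hE

lemma skip_K {E : ℚ[X]} (hE : Skip E) : Skip ((3 * (X ^ 3 - 1) ^ 2 + 27 * X ^ 3) * E) := by
  have : (3 * (X ^ 3 - 1) ^ 2 + 27 * X ^ 3) * E =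
      C 3 * ((X ^ 3 - 1) * ((X ^ 3 - 1) * E)) + C 27 * (X ^ 3 * E) := by
    simp only [map_ofNat]; ring
  rw [this]
  exact skip_add (skip_C _ (skip_T (skip_T hE))) (skip_C _ (skip_X3 hE))

lemma skip_T2 {E : ℚ[X]} (hE : Skip E) : Skip ((X ^ 3 - 1) ^ 2 * E) := by
  have : (X ^ 3 - 1) ^ 2 * E = (X ^ 3 - 1) * ((X ^ 3 - 1) * E) := by ring
  rw [this]; exact skip_T (skip_T hE)

lemma skip_T4 {E : ℚ[X]} (hE : Skip E) : Skip (3 * (X ^ 3 - 1) ^ 4 * E) := by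
  have : 3 * (X ^ 3 - 1) ^ 4 * E = C 3 * ((X ^ 3 - 1) ^ 2 * ((X ^ 3 - 1) ^ 2 * E)) := by
    simp only [map_ofNat]; ring
  rw [this]; exact skip_C _ (skip_T2 (skip_T2 hE))

lemma skip_T6 {E : ℚ[X]} (hE : Skip E) : Skip ((X ^ 3 - 1) ^ 6 * E) := by
  have : (X ^ 3 - 1) ^ 6 * E = (X ^ 3 - 1) ^ 2 * ((X ^ 3 - 1) ^ 2 * ((X ^ 3 - 1) ^ 2 * E)) := by
    ring
  rw [this]; exact skip_T2 (skip_T2 (skip_T2 hE))

lemma skip_mon (a : ℚ) (e : ℕ) (he : e % 3 ≠ 2) : Skip (C a * X ^ e) := fun k => by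
  rw [coeff_C_mul_X_pow, if_neg (by omega)]

lemma skip_P0 : Skip (X ^ 4 - 2 * X ^ 3 + 2 * X - 1) := by
  have : (X ^ 4 - 2 * X ^ 3 + 2 * X - 1 : ℚ[X]) =
      C 1 * X ^ 4 - C 2 * X ^ 3 + C 2 * X ^ 1 - C 1 * X ^ 0 := by
    simp only [map_ofNat, map_one]; ring
  rw [this]
  exact skip_sub (skip_add (skip_sub (skip_mon _ _ (by norm_num)) (skip_mon _ _ (by norm_num)))
    (skip_mon _ _ (by norm_num))) (skip_mon _ _ (by norm_num))

lemma skip_P1 : Skip (X ^ 4 + X ^ 3 - X - 1) := by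
  have : (X ^ 4 + X ^ 3 - X - 1 : ℚ[X]) =
      C 1 * X ^ 4 + C 1 * X ^ 3 - C 1 * X ^ 1 - C 1 * X ^ 0 := by
    simp only [map_one]; ring
  rw [this]
  exact skip_sub (skip_sub (skip_add (skip_mon _ _ (by norm_num)) (skip_mon _ _ (by norm_num)))
    (skip_mon _ _ (by norm_num))) (skip_mon _ _ (by norm_num))

/-- the polynomials `E_i` -/
noncomputable def EE : ℕ → ℚ[X]
  | 0 => X ^ 4 - 2 * X ^ 3 + 2 * X - 1
  | 1 => (3 * (X ^ 3 - 1) ^ 2 + 27 * X ^ 3) * (X ^ 4 - 2 * X ^ 3 + 2 * X - 1) -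
      (X ^ 3 - 1) ^ 2 * (X ^ 4 + X ^ 3 - X - 1)
  | 2 => (3 * (X ^ 3 - 1) ^ 2 + 27 * X ^ 3) * EE 1 - 3 * (X ^ 3 - 1) ^ 4 * EE 0
  | i + 3 => (3 * (X ^ 3 - 1) ^ 2 + 27 * X ^ 3) * EE (i + 2) -
      3 * (X ^ 3 - 1) ^ 4 * EE (i + 1) + (X ^ 3 - 1) ^ 6 * EE i

lemma skip_EE (i : ℕ) : Skip (EE i) := by
  induction i using Nat.strong_induction_on with
  | _ i ih =>
    match i with
    | 0 => exact skip_P0
    | 1 => exact skip_sub (skip_K skip_P0) (skip_T2 skip_P1)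
    | 2 =>
      unfold EE
      exact skip_sub (skip_K (ih 1 (by omega))) (skip_T4 (ih 0 (by omega)))
    | i + 3 =>
      unfold EE
      exact skip_add (skip_sub (skip_K (ih (i + 2) (by omega))) (skip_T4 (ih (i + 1) (by omega))))
        (skip_T6 (ih i (by omega)))

lemma NN_eval (n : ℕ) (w : ℚ) : (NN (n + 2)).eval w =
    (3 * w - w ^ 2) * (NN (n + 1)).eval w - w * (NN n).eval w := by
  simp [NN]

lemma NN_eval0 (w : ℚ) : (NN 0).eval w = 1 := by simp [NN]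

lemma NN_eval1 (w : ℚ) : (NN 1).eval w = 3 * w - w ^ 2 := by simp [NN]

lemma EE_eval (i : ℕ) (v : ℚ) : (EE i).eval v =
    (v ^ 2 - 1) * (v - 1) ^ 2 * (v ^ 3 - 1) ^ (2 * i) * (NN i).eval (wv v) := by
  have hq := q_pos v
  have hq0 : v ^ 2 + v + 1 ≠ 0 := hq.ne'
  by_cases hv : v = 1
  · subst hv
    have h0 : (((1 : ℚ) ^ 2 - 1)) = 0 := by norm_num
    rw [h0]
    simp only [zero_mul]
    induction i using Nat.strong_induction_on with
    | _ i ih =>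
      match i with
      | 0 => simp [EE]
      | 1 => simp [EE]
      | 2 =>
        have h1 := ih 1 (by omega)
        unfold EE
        simp [h1]
      | i + 3 =>
        have h1 := ih (i + 2) (by omega)
        unfold EE
        simp [h1]
  · have hv1 : v - 1 ≠ 0 := sub_ne_zero.2 hv
    set w := wv v with hw
    have hwq : w * (v ^ 2 + v + 1) = (v - 1) ^ 2 := wv_mul v
    have hw0 : w ≠ 0 := by
      intro h
      rw [h, zero_mul] at hwq
      exact pow_ne_zero 2 hv1 hwq.symm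
    have hwt : (v ^ 3 - 1) ^ 2 * w = (v - 1) ^ 4 * (v ^ 2 + v + 1) := by
      linear_combination (v - 1) ^ 2 * (v ^ 2 + v + 1) * hwq
    have hwt2 : (v ^ 3 - 1) ^ 2 * w ^ 2 = (v - 1) ^ 6 := by
      linear_combination (v - 1) ^ 2 * (w * (v ^ 2 + v + 1) + (v - 1) ^ 2) * hwq
    have hK : w * (3 * (v ^ 3 - 1) ^ 2 + 27 * v ^ 3 - (v ^ 3 - 1) ^ 2 * (3 * w - w ^ 2)) =
        (v ^ 3 - 1) ^ 2 := by
      refine mul_left_cancel₀ hq0 ?_
      linear_combination (3 * (v ^ 3 - 1) ^ 2 + 27 * v ^ 3 -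
        3 * (v - 1) ^ 2 * (v ^ 2 + v + 1) * (w * (v ^ 2 + v + 1) + (v - 1) ^ 2) +
        (v - 1) ^ 2 * ((w * (v ^ 2 + v + 1)) ^ 2 + w * (v ^ 2 + v + 1) * (v - 1) ^ 2 +
          (v - 1) ^ 4)) * hwq
    induction i using Nat.strong_induction_on with
    | _ i ih =>
      match i with
      | 0 =>
        rw [NN_eval0]
        simp [EE]
        ring
      | 1 =>
        rw [NN_eval1]
        simp only [EE, eval_sub, eval_mul, eval_add, eval_pow, eval_X, eval_one, eval_ofNat]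
        linear_combination (-(v ^ 2 - 1) * (v - 1) ^ 2 * 3) * hwt +
          ((v ^ 2 - 1) * (v - 1) ^ 2) * hwt2
      | 2 =>
        have h1 := ih 1 (by omega)
        have h0 := ih 0 (by omega)
        have hN := NN_eval 0 w
        rw [zero_add] at hN
        unfold EE
        simp only [eval_sub, eval_mul, eval_add, eval_pow, eval_X, eval_one, eval_ofNat]
        rw [h1, h0, hN, NN_eval1, NN_eval0]
        refine mul_left_cancel₀ hw0 ?_
        linear_combination (((v ^ 2 - 1) * (v - 1) ^ 2 * (v ^ 3 - 1) ^ 2) * (3 * w - w ^ 2)) * hK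
      | i + 3 =>
        have h2 := ih (i + 2) (by omega)
        have h1 := ih (i + 1) (by omega)
        have h0 := ih i (by omega)
        have hN3 := NN_eval (i + 1) w
        have hN2 := NN_eval i w
        unfold EE
        simp only [eval_sub, eval_mul, eval_add, eval_pow, eval_X, eval_one, eval_ofNat]
        rw [h2, h1, h0]
        have e3 : (NN (i + 3)).eval w = (3 * w - w ^ 2) * (NN (i + 2)).eval w -
            w * (NN (i + 1)).eval w := hN3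
        rw [e3]
        have key : (3 * (v ^ 3 - 1) ^ 2 + 27 * v ^ 3 - (v ^ 3 - 1) ^ 2 * (3 * w - w ^ 2)) *
            (NN (i + 2)).eval w - (3 - w) * (v ^ 3 - 1) ^ 2 * (NN (i + 1)).eval w +
              (v ^ 3 - 1) ^ 2 * (NN i).eval w = 0 := by
          refine mul_left_cancel₀ hw0 ?_
          linear_combination (NN (i + 2)).eval w * hK + (v ^ 3 - 1) ^ 2 * hN2
        have e4 : (v ^ 3 - 1) ^ (2 * (i + 3)) = (v ^ 3 - 1) ^ (2 * i) * (v ^ 3 - 1) ^ 6 := by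
          rw [← pow_add]; congr 1
        have e5 : (v ^ 3 - 1) ^ (2 * (i + 2)) = (v ^ 3 - 1) ^ (2 * i) * (v ^ 3 - 1) ^ 4 := by
          rw [← pow_add]; congr 1
        have e6 : (v ^ 3 - 1) ^ (2 * (i + 1)) = (v ^ 3 - 1) ^ (2 * i) * (v ^ 3 - 1) ^ 2 := by
          rw [← pow_add]; congr 1
        rw [e4, e5, e6]
        linear_combination ((v ^ 2 - 1) * (v - 1) ^ 2 * (v ^ 3 - 1) ^ (2 * i) *
          (v ^ 3 - 1) ^ 4) * key

theorem T_NV : S_NV := fun i => ⟨EE i, skip_EE i, EE_eval i⟩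

end Pool.Agent.W932.OS
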