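import Pool.Agent.W98.OS.Defs

/-!
# The explicit solution
-/

set_option autoImplicit false

namespace Pool.Agent.W932.OS

open Pool.Agent.W98.OS

section poly

open Polynomial

/-- the coefficient of `Y ^ j` in `(a + Y * b) ^ M` -/
lemma coeff_lin_pow {R : Type*} [CommRing R] (a b : R) (M j : ℕ) :
    ((C a + X * C b : R[X]) ^ M).coeff j = (M.choose j : R) * (a ^ (M - j) * b ^ j) := by
  rw [add_comm, add_pow, finset_sum_coeff]
  have h : ∀ i ∈ Finset.range (M + 1),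
      ((X * C b : R[X]) ^ i * (C a) ^ (M - i) * (M.choose i : R[X])).coeff j =
        if i = j then (M.choose j : R) * (a ^ (M - j) * b ^ j) else 0 := by
    intro i _
    have e : ((X * C b : R[X]) ^ i * (C a) ^ (M - i) * (M.choose i : R[X])) =
        C ((M.choose i : R) * (a ^ (M - i) * b ^ i)) * X ^ i := by
      rw [mul_pow, ← C_eq_natCast, C_mul, C_mul, C_pow, C_pow]
      simp only [C_eq_natCast]
      ring
    rw [e, coeff_C_mul_X_pow]
    by_cases hij : i = j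
    · subst hij; simp
    · rw [if_neg hij, if_neg (Ne.symm hij)]
  rw [Finset.sum_congr rfl h, Finset.sum_ite_eq' (Finset.range (M + 1)) j]
  split_ifs with hj
  · rfl
  · rw [Finset.mem_range, not_lt] at hj
    rw [Nat.choose_eq_zero_of_lt (by omega)]
    simp

lemma bivariate (M j m : ℕ) :
    (M.choose j : ℚ) * ((X - 1 : ℚ[X]) ^ (M - j) * (X + 1) ^ j).coeff m =
      (M.choose m : ℚ) * (-1) ^ (M - m) * ((1 + X : ℚ[X]) ^ m * (1 - X) ^ (M - m)).coeff j := by
  have h1 : (((C (X - 1) + X * C (X + 1) : ℚ[X][X]) ^ M).coeff j).coeff m =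
      (M.choose j : ℚ) * ((X - 1 : ℚ[X]) ^ (M - j) * (X + 1) ^ j).coeff m := by
    rw [coeff_lin_pow, ← C_eq_natCast, coeff_C_mul]
  have h2 : (C (X - 1) + X * C (X + 1) : ℚ[X][X]) =
      (mapRingHom (C : ℚ →+* ℚ[X])) (-(1 - X)) + C X * (mapRingHom (C : ℚ →+* ℚ[X])) (1 + X) := by
    simp only [map_sub, map_add, map_neg, map_one, coe_mapRingHom, Polynomial.map_X]
    ring
  rw [← h1, h2, add_comm, add_pow, finset_sum_coeff, finset_sum_coeff]
  have h : ∀ i ∈ Finset.range (M + 1),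
      ((((C X * (mapRingHom (C : ℚ →+* ℚ[X])) (1 + X)) ^ i *
        ((mapRingHom (C : ℚ →+* ℚ[X])) (-(1 - X))) ^ (M - i) *
          (M.choose i : ℚ[X][X])).coeff j).coeff m) =
        if i = m then (M.choose m : ℚ) * (-1) ^ (M - m) *
          ((1 + X : ℚ[X]) ^ m * (1 - X) ^ (M - m)).coeff j else 0 := by
    intro i _
    have e : ((C X * (mapRingHom (C : ℚ →+* ℚ[X])) (1 + X)) ^ i *
        ((mapRingHom (C : ℚ →+* ℚ[X])) (-(1 - X))) ^ (M - i) * (M.choose i : ℚ[X][X])) =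
        C (X ^ i) * (mapRingHom (C : ℚ →+* ℚ[X]))
          ((M.choose i : ℚ[X]) * ((1 + X) ^ i * (-(1 - X)) ^ (M - i))) := by
      simp only [mul_pow, map_mul, map_pow, map_natCast]
      ring
    rw [e, coeff_C_mul, coe_mapRingHom, coeff_map, mul_comm, coeff_C_mul, coeff_X_pow,
      ← C_eq_natCast, coeff_C_mul, neg_pow, ← mul_assoc ((1 + X : ℚ[X]) ^ i)]
    by_cases him : i = m
    · subst him
      rw [if_pos rfl, if_pos rfl, mul_one]
      have e2 : (1 + X : ℚ[X]) ^ i * (-1) ^ (M - i) * (1 - X) ^ (M - i) =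
          C ((-1) ^ (M - i)) * ((1 + X) ^ i * (1 - X) ^ (M - i)) := by
        rw [C_pow, C_neg, C_1]; ring
      rw [e2, coeff_C_mul]
      ring
    · rw [if_neg him, if_neg (Ne.symm him), mul_zero]
  rw [Finset.sum_congr rfl h, Finset.sum_ite_eq' (Finset.range (M + 1)) m]
  split_ifs with hj
  · rfl
  · rw [Finset.mem_range, not_lt] at hj
    rw [Nat.choose_eq_zero_of_lt (by omega)]
    simp

end poly

section series

open PowerSeries

lemma coeff_vanish (W D : ℚ⟦X⟧) (h : D * W = X) (e : ℕ) :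
    coeff (e + 1) (W ^ (e + 2) * d⁄dX ℚ D) = 0 := by
  have h1 : D * d⁄dX ℚ W + W * d⁄dX ℚ D = 1 := by
    have := congrArg (d⁄dX ℚ) h
    rw [Derivation.leibniz, derivative_X] at this
    simpa [smul_eq_mul] using this
  have h2 : W ^ (e + 2) * d⁄dX ℚ D = W ^ (e + 1) - W ^ e * d⁄dX ℚ W * X := by
    calc W ^ (e + 2) * d⁄dX ℚ D = W ^ (e + 1) * (W * d⁄dX ℚ D) := by ring
      _ = W ^ (e + 1) * (1 - D * d⁄dX ℚ W) := by rw [← h1]; ring
      _ = W ^ (e + 1) - W ^ e * d⁄dX ℚ W * (D * W) := by ring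
      _ = _ := by rw [h]
  have h3 : coeff e (d⁄dX ℚ (W ^ (e + 1))) = coeff (e + 1) (W ^ (e + 1)) * (e + 1) := by
    rw [coeff_derivative]
  have h4 : d⁄dX ℚ (W ^ (e + 1)) = C ((e : ℚ) + 1) * (W ^ e * d⁄dX ℚ W) := by
    rw [derivative_pow]
    simp only [Nat.add_sub_cancel, map_add, map_natCast, map_one]
    push_cast
    ring
  rw [h4, coeff_C_mul] at h3
  rw [h2, map_sub, coeff_succ_mul_X]
  have h5 : (e : ℚ) + 1 ≠ 0 := by positivity
  have h6 : coeff e (W ^ e * d⁄dX ℚ W) = coeff (e + 1) (W ^ (e + 1)) := by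
    rw [mul_comm ((e : ℚ) + 1)] at h3
    exact mul_right_cancel₀ h5 h3
  rw [h6, sub_self]

/-- the series `(1 + x ^ 2 / 3) ^ (- (d + 1))` -/
noncomputable def Gs (d : ℕ) : ℚ⟦X⟧ := PowerSeries.mk fun j =>
  if Even j then ((d + j / 2).choose (j / 2) : ℚ) * (-1 / 3) ^ (j / 2) else 0

/-- `1 + x ^ 2 / 3` -/
noncomputable def Hs : ℚ⟦X⟧ := 1 + C (1 / 3) * X ^ 2

lemma Gs_mul (d : ℕ) : Gs (d + 1) * Hs = Gs d := by
  ext j
  unfold Hs Gs
  rw [mul_add, mul_one, map_add, ← mul_assoc, mul_comm _ (C (1 / 3 : ℚ)), mul_assoc, coeff_C_mul,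
    coeff_mul_X_pow']
  simp only [coeff_mk]
  by_cases hj : Even j
  · obtain ⟨i, hi⟩ := hj
    have hi2 : j = 2 * i := by omega
    subst hi2
    rw [if_pos (by exact even_two_mul i), if_pos (even_two_mul i)]
    rcases Nat.eq_zero_or_pos i with rfl | hi0
    · simp
    · obtain ⟨i', rfl⟩ : ∃ i', i = i' + 1 := ⟨i - 1, by omega⟩
      have e1 : 2 * (i' + 1) - 2 = 2 * i' := by omega
      rw [if_pos (by omega), e1, if_pos (even_two_mul i')]
      have e2 : 2 * (i' + 1) / 2 = i' + 1 := by omega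
      have e3 : 2 * i' / 2 = i' := by omega
      rw [e2, e3]
      have e4 : ((d + 1 + (i' + 1)).choose (i' + 1) : ℚ) =
          ((d + 1 + i').choose i' : ℚ) + ((d + (i' + 1)).choose (i' + 1) : ℚ) := by
        have : d + 1 + (i' + 1) = (d + 1 + i') + 1 := by ring
        rw [this, Nat.choose_succ_succ]
        have e5 : d + (i' + 1) = d + 1 + i' := by ring
        rw [e5]
        push_cast
        rfl
      rw [e4, pow_succ]
      ring
  · rw [if_neg hj, if_neg hj]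
    have : ¬ Even (j - 2) ∨ ¬ 2 ≤ j := by
      by_cases h2 : 2 ≤ j
      · left
        intro h
        exact hj (by obtain ⟨i, hi⟩ := h; exact ⟨i + 1, by omega⟩)
      · right; exact h2
    rcases this with h | h
    · rw [if_neg h]; simp
    · rw [if_neg h]; simp

lemma Gs_zero : Gs 0 * Hs = 1 := by
  ext j
  unfold Hs Gs
  rw [mul_add, mul_one, map_add, ← mul_assoc, mul_comm _ (C (1 / 3 : ℚ)), mul_assoc, coeff_C_mul,
    coeff_mul_X_pow']
  simp only [coeff_mk, zero_add, Nat.choose_self, Nat.cast_one, one_mul]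
  rw [coeff_one]
  by_cases hj : Even j
  · obtain ⟨i, hi⟩ := hj
    have hi2 : j = 2 * i := by omega
    subst hi2
    rw [if_pos (even_two_mul i)]
    rcases Nat.eq_zero_or_pos i with rfl | hi0
    · simp
    · obtain ⟨i', rfl⟩ : ∃ i', i = i' + 1 := ⟨i - 1, by omega⟩
      have e1 : 2 * (i' + 1) - 2 = 2 * i' := by omega
      rw [if_pos (by omega), e1, if_pos (even_two_mul i'), if_neg (by omega)]
      have e2 : 2 * (i' + 1) / 2 = i' + 1 := by omega
      have e3 : 2 * i' / 2 = i' := by omega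
      rw [e2, e3, pow_succ]
      ring
  · rw [if_neg hj, if_neg (fun h : j = 0 => hj (by rw [h]; exact Even.zero))]
    have : ¬ Even (j - 2) ∨ ¬ 2 ≤ j := by
      by_cases h2 : 2 ≤ j
      · left
        intro h
        exact hj (by obtain ⟨i, hi⟩ := h; exact ⟨i + 1, by omega⟩)
      · right; exact h2
    rcases this with h | h
    · rw [if_neg h]; simp
    · rw [if_neg h]; simp

lemma Gs_pow (d : ℕ) : Gs d * Hs ^ (d + 1) = 1 := by
  induction d with
  | zero => rw [zero_add, pow_one]; exact Gs_zero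
  | succ d ih => rw [pow_succ' Hs (d + 1), ← mul_assoc, Gs_mul, ih]

lemma main_vanish (n k : ℕ) (hk : k ≤ 2 * n) :
    coeff (2 * n + 1) ((1 + X : ℚ⟦X⟧) ^ (3 * k + 2) * (1 - X) ^ (6 * n + 4 - (3 * k + 2)) *
      Gs (2 * n + 1)) = 0 := by
  set a : ℚ⟦X⟧ := 1 - X with ha
  have ha0 : constantCoeff a ≠ 0 := by rw [ha]; simp
  set b := a⁻¹ with hb
  have hab : a * b = 1 := PowerSeries.mul_inv_cancel a ha0
  set U : ℚ⟦X⟧ := Hs * b ^ 3 with hU
  set Hi : ℚ⟦X⟧ := Gs 0 with hHi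
  have hH : Hi * Hs = 1 := Gs_zero
  set W : ℚ⟦X⟧ := a ^ 3 * Hi with hW
  set D : ℚ⟦X⟧ := X * U with hD
  have hab3 : a ^ 3 * b ^ 3 = 1 := by rw [← mul_pow, hab, one_pow]
  have hUW : U * W = 1 := by
    calc U * W = (a ^ 3 * b ^ 3) * (Hi * Hs) := by rw [hU, hW]; ring
      _ = 1 := by rw [hab3, hH, one_mul]
  have hDW : D * W = X := by rw [hD, mul_assoc, hUW, mul_one]
  have hDa : D * a ^ 3 = X * Hs := by
    calc D * a ^ 3 = X * Hs * (a ^ 3 * b ^ 3) := by rw [hD, hU]; ring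
      _ = X * Hs := by rw [hab3, mul_one]
  clear_value D W U Hi b
  have hC3 : (C (1 / 3 : ℚ) : ℚ⟦X⟧) * 3 = 1 := by
    have : (3 : ℚ⟦X⟧) = C (3 : ℚ) := (map_ofNat (C : ℚ →+* ℚ⟦X⟧) 3).symm
    rw [this, ← map_mul]; norm_num
  have hcube : (1 + X : ℚ⟦X⟧) ^ 3 = a ^ 3 * (1 + 6 * D) := by
    have : a ^ 3 * (1 + 6 * D) = a ^ 3 + 6 * (D * a ^ 3) := by ring
    rw [this, hDa, ha]
    unfold Hs
    linear_combination (-2 * X ^ 3 : ℚ⟦X⟧) * hC3
  have hda : d⁄dX ℚ a = -1 := by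
    rw [ha, map_sub, derivative_one, derivative_X, zero_sub]
  have hdD : d⁄dX ℚ D * a ^ 4 = (1 + X) ^ 2 := by
    have h1 := congrArg (d⁄dX ℚ) hDa
    rw [Derivation.leibniz, Derivation.leibniz, derivative_pow, hda, derivative_X] at h1
    simp only [smul_eq_mul] at h1
    have h2 : d⁄dX ℚ Hs = 2 * C (1 / 3) * X := by
      unfold Hs
      rw [map_add, derivative_one, Derivation.leibniz, derivative_pow, derivative_C,
        derivative_X]
      simp only [smul_eq_mul]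
      push_cast
      ring
    rw [h2] at h1
    have h3 : d⁄dX ℚ D * a ^ 4 = a * (X * (2 * C (1 / 3) * X) + Hs * 1) + 3 * (D * a ^ 3) := by
      have : a * (a ^ 3 * d⁄dX ℚ D) = a * (X * (2 * C (1 / 3) * X) + Hs * 1 -
          D * (((3 : ℕ) : ℚ⟦X⟧) * a ^ (3 - 1) * -1)) := by
        rw [← h1]; ring
      have e : d⁄dX ℚ D * a ^ 4 = a * (a ^ 3 * d⁄dX ℚ D) := by ring
      rw [e, this]
      push_cast
      ring
    rw [h3, hDa, ha]
    unfold Hs
    linear_combination (X ^ 2 : ℚ⟦X⟧) * hC3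
  have hG : Gs (2 * n + 1) = Hi ^ (2 * n + 2) := by
    have h1 := Gs_pow (2 * n + 1)
    have h2 : Hi ^ (2 * n + 2) * Hs ^ (2 * n + 2) = 1 := by rw [← mul_pow, hH, one_pow]
    calc Gs (2 * n + 1) = Gs (2 * n + 1) * (Hi ^ (2 * n + 2) * Hs ^ (2 * n + 2)) := by
          rw [h2, mul_one]
      _ = (Gs (2 * n + 1) * Hs ^ (2 * n + 1 + 1)) * Hi ^ (2 * n + 2) := by ring
      _ = Hi ^ (2 * n + 2) := by rw [h1, one_mul]
  have hP : (1 + X : ℚ⟦X⟧) ^ (3 * k + 2) * a ^ (6 * n + 4 - (3 * k + 2)) * Gs (2 * n + 1) =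
      (6 * D + 1) ^ k * (W ^ (2 * n + 2) * d⁄dX ℚ D) := by
    obtain ⟨t, ht⟩ : ∃ t, 6 * n + 2 = 3 * k + t := ⟨6 * n + 2 - 3 * k, by omega⟩
    have e1 : 6 * n + 4 - (3 * k + 2) = t := by omega
    rw [e1, hG, pow_add, pow_mul, hcube, ← hdD, hW]
    have e2 : (a ^ 3 * Hi) ^ (2 * n + 2) = a ^ (3 * k) * a ^ 4 * a ^ t * Hi ^ (2 * n + 2) := by
      rw [mul_pow, ← pow_mul, ← pow_add, ← pow_add]
      congr 2
      omega
    rw [e2, mul_pow, ← pow_mul]
    ring
  rw [hP, add_pow, Finset.sum_mul, map_sum]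
  refine Finset.sum_eq_zero fun j hj => ?_
  rw [Finset.mem_range] at hj
  have e3 : (6 * D) ^ j * 1 ^ (k - j) * ((k.choose j : ℕ) : ℚ⟦X⟧) *
      (W ^ (2 * n + 2) * d⁄dX ℚ D) =
        C ((6 : ℚ) ^ j * (k.choose j : ℚ)) * (W ^ (2 * n + 2 - j) * d⁄dX ℚ D * X ^ j) := by
    have e4 : W ^ (2 * n + 2) = W ^ (2 * n + 2 - j) * W ^ j := by
      rw [← pow_add]; congr 1; omega
    have e5 : D ^ j * W ^ j = X ^ j := by rw [← mul_pow, hDW]
    rw [e4, one_pow, mul_one, mul_pow, map_mul, map_pow, map_natCast, map_ofNat]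
    calc _ = 6 ^ j * (k.choose j : ℚ⟦X⟧) * (W ^ (2 * n + 2 - j) * d⁄dX ℚ D * (D ^ j * W ^ j)) := by
          ring
      _ = _ := by rw [e5]
  rw [e3, coeff_C_mul, coeff_mul_X_pow', if_pos (by omega)]
  have e6 : 2 * n + 1 - j = (2 * n - j) + 1 := by omega
  have e7 : 2 * n + 2 - j = (2 * n - j) + 2 := by omega
  rw [e6, e7, coeff_vanish W D hDW, mul_zero]

end series

open Polynomial in
theorem T_M0 : S_M0 := by
  intro n k
  rw [finset_sum_coeff]
  set m := 3 * k + 2 with hm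
  set M := 6 * n + 4 with hM
  set B : ℚ[X] := (1 + X) ^ m * (1 - X) ^ (M - m) with hB
  have hterm : ∀ i ∈ Finset.range (n + 1),
      (C ((-1) ^ i * 3 ^ (n - i) * (M.choose (2 * n + 1 - 2 * i) : ℚ) *
        ((2 * n + 1 + i).choose i : ℚ)) * (X - 1) ^ (4 * n + 3 + 2 * i) *
          (X + 1) ^ (2 * n + 1 - 2 * i)).coeff m =
        3 ^ n * (M.choose m : ℚ) * (-1) ^ (M - m) *
          (((2 * n + 1 + i).choose i : ℚ) * (-1 / 3) ^ i * B.coeff (2 * n + 1 - 2 * i)) := by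
    intro i hi
    rw [Finset.mem_range] at hi
    have h1 := bivariate M (2 * n + 1 - 2 * i) m
    have e1 : M - (2 * n + 1 - 2 * i) = 4 * n + 3 + 2 * i := by omega
    rw [e1] at h1
    rw [mul_assoc (C _), coeff_C_mul]
    have e2 : (3 : ℚ) ^ n = 3 ^ (n - i) * 3 ^ i := by rw [← pow_add]; congr 1; omega
    have e3 : (-1 / 3 : ℚ) ^ i = (-1) ^ i / 3 ^ i := by rw [div_pow]
    rw [e2, e3]
    have h3 : (3 : ℚ) ^ i ≠ 0 := by positivity
    calc _ = (-1) ^ i * 3 ^ (n - i) * ((2 * n + 1 + i).choose i : ℚ) *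
          ((M.choose (2 * n + 1 - 2 * i) : ℚ) *
            ((X - 1 : ℚ[X]) ^ (4 * n + 3 + 2 * i) * (X + 1) ^ (2 * n + 1 - 2 * i)).coeff m) := by
          ring
      _ = _ := by
          rw [h1, ← hB]
          field_simp
  rw [Finset.sum_congr rfl hterm, ← Finset.mul_sum]
  rcases Nat.lt_or_ge M m with hlt | hge
  · rw [Nat.choose_eq_zero_of_lt hlt]; simp
  · have hk : k ≤ 2 * n := by omega
    have hv := main_vanish n k hk
    have hcoe : ((1 + PowerSeries.X : PowerSeries ℚ) ^ (3 * k + 2) *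
        (1 - PowerSeries.X) ^ (6 * n + 4 - (3 * k + 2))) = (B : PowerSeries ℚ) := by
      rw [hB]
      simp only [coe_mul, coe_pow, coe_add, coe_sub, coe_one, coe_X]
      rfl
    rw [hcoe, PowerSeries.coeff_mul] at hv
    have hsum : ∑ i ∈ Finset.range (n + 1),
        ((2 * n + 1 + i).choose i : ℚ) * (-1 / 3) ^ i * B.coeff (2 * n + 1 - 2 * i) = 0 := by
      rw [← hv, Finset.Nat.sum_antidiagonal_eq_sum_range_succ_mk]
      symm
      rw [← Finset.sum_range_reflect]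
      simp only [Polynomial.coeff_coe]
      have hcongr : ∀ j ∈ Finset.range (2 * n + 1).succ,
          B.coeff ((2 * n + 1).succ - 1 - j) * (PowerSeries.coeff
            (2 * n + 1 - ((2 * n + 1).succ - 1 - j))) (Gs (2 * n + 1)) =
          if Even j then ((2 * n + 1 + j / 2).choose (j / 2) : ℚ) * (-1 / 3) ^ (j / 2) *
            B.coeff (2 * n + 1 - j) else 0 := by
        intro j hj
        rw [Finset.mem_range] at hj
        have e1 : (2 * n + 1).succ - 1 - j = 2 * n + 1 - j := by omega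
        have e2 : 2 * n + 1 - (2 * n + 1 - j) = j := by omega
        rw [e1, e2]
        unfold Gs
        rw [PowerSeries.coeff_mk]
        split_ifs <;> ring
      rw [Finset.sum_congr rfl hcongr]
      have hdouble : ∀ (N : ℕ) (f : ℕ → ℚ), ∑ j ∈ Finset.range (2 * N), (if Even j then f j else 0)
          = ∑ i ∈ Finset.range N, f (2 * i) := by
        intro N f
        induction N with
        | zero => simp
        | succ N ih =>
          have : 2 * (N + 1) = 2 * N + 1 + 1 := by ring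
          rw [this, Finset.sum_range_succ, Finset.sum_range_succ, ih, Finset.sum_range_succ,
            if_pos (even_two_mul N), if_neg (by simp)]
          ring
      have e3 : (2 * n + 1).succ = 2 * (n + 1) := by omega
      rw [e3, hdouble (n + 1)]
      refine Finset.sum_congr rfl fun i _ => ?_
      have e4 : 2 * i / 2 = i := by omega
      rw [e4]
    rw [hsum, mul_zero]

end Pool.Agent.W932.OS
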